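import Pool.Agent.Work.MP_6241b7_aa.ALL

/-!
# Burr's conjecture up to an absolute constant factor for almost all trees

There is an absolute constant `C` such that for all `k ≥ 1` and for all but a proportion
`C k ^ (-1/32)` of the labelled trees `G` with vertices `0, ..., k`: every orientation `T` of `G` is contained
in every finite loopless digraph `D` of chromatic number larger than `C k`.

Idea: helper48, helper68. Lean: helper18, helper26, helper29, helper39, helper48, helper53, helper54,
helper64, helper85, helper87 (`Work/MP_6241b7_aa`, see `BLUEPRINT.md` there), on top of the theorem `HeightSum`.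

Proof. By the height sum theorem every digraph of chromatic number larger than
`72 ∑ (1 + 2 ⌊log_3 height v⌋)` contains `T`, and the height of a vertex is smaller than the number `s v` of its
descendants. The number of labelled trees with `n` vertices, root `r` and a marked vertex with `m`
descendants is `n ^ (n - 2) (n / m) a_m a_(n - m) / a_n`, `a_j = j ^ j / j!` (there are `k n ^ (n - k - 1)`
forests with `k` given roots). Hence the mean of `∑ s v ^ (1/4)` is `O(n)`, and so is its value for almost all
trees, by Chebyshev's inequality for the vertices with `s v ≤ n ^ (1/8)` and Markov's inequality for the others.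
-/

set_option autoImplicit false

open Finset

namespace Pool.Agent.Results.MP_6241b7_co.AlmostAllTrees

theorem result : ∃ C : ℕ, ∀ k : ℕ, 1 ≤ k →
    ({G : SimpleGraph (Fin (k + 1)) | G.IsTree ∧
      ∃ T : Fin (k + 1) → Fin (k + 1) → Prop, (∀ a b, T a b → ¬ T b a) ∧
        SimpleGraph.fromRel T = G ∧
        ∃ (n : ℕ) (D : Fin n → Fin n → Prop), (∀ x, ¬ D x x) ∧
          ((C * k : ℕ) : ℕ∞) < (SimpleGraph.fromRel D).chromaticNumber ∧
          ¬ ∃ f : Fin (k + 1) → Fin n, Function.Injective f ∧ ∀ x y, T x y → D (f x) (f y)}.ncard : ℝ) ≤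
      C * (k : ℝ) ^ (-(1 / 32) : ℝ) * ({G : SimpleGraph (Fin (k + 1)) | G.IsTree}.ncard : ℝ) := by
  classical
  obtain ⟨C, hC⟩ := Pool.AA.stmt_AA
  refine ⟨C, fun k hk => ?_⟩
  have h := hC k hk
  have h1 : {G : SimpleGraph (Fin (k + 1)) | G.IsTree}.ncard =
      (univ.filter (fun G : SimpleGraph (Fin (k + 1)) => G.IsTree)).card := by
    rw [← Set.ncard_coe_finset]
    congr 1
    ext G
    simp
  have h2 : {G : SimpleGraph (Fin (k + 1)) | G.IsTree ∧
      ∃ T : Fin (k + 1) → Fin (k + 1) → Prop, (∀ a b, T a b → ¬ T b a) ∧
        SimpleGraph.fromRel T = G ∧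
        ∃ (n : ℕ) (D : Fin n → Fin n → Prop), (∀ x, ¬ D x x) ∧
          ((C * k : ℕ) : ℕ∞) < (SimpleGraph.fromRel D).chromaticNumber ∧
          ¬ ∃ f : Fin (k + 1) → Fin n, Function.Injective f ∧ ∀ x y, T x y → D (f x) (f y)}.ncard =
      (Pool.AA.Bad C k).card := by
    rw [← Set.ncard_coe_finset]
    congr 1
    ext G
    simp [Pool.AA.Bad, Pool.AA.Cont]
  rw [h1, h2]
  convert h using 3

end Pool.Agent.Results.MP_6241b7_co.AlmostAllTrees
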