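import Pool.Agent.Work.MP_6241b7_co.FracMain

/-!
# Burr's conjecture for the fractional chromatic number

Every digraph whose fractional chromatic number is at least
`2 k - m + 1 + 17 √((k - m) r log (k + 1)) + 38 r log (k + 1)` contains every oriented tree with `k`
edges in which all vertices are at distance at most `r` from a directed path with `m` edges. In
particular (`m = 0`) the bound `(2 + o(1)) k` holds for all oriented trees of radius
`o (k / log k)`, and a bound `O (k log k)` holds for all oriented trees.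

Proof idea. By duality there are vertex weights of total weight close to the fractional chromatic
number for which independent sets have weight at most `1`. For every weighting there is an
independent set `I` such that the vertices in `I` or with an out-neighbour in `I` carry at least
half of the weight. Iterating with a multiplicative potential, the union `K` of
`(2 + ε) d + O (log k / ε)` independent sets gives at least `d` out-neighbours in `K` to all
vertices outside a set of weight `1`. The layers of the tree around the directed path are embedded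
from the inside to the outside, the leaves of each layer being put into such absorbing sets; the
directed path is found by the theorem of Gallai, Hasse, Roy and Vitaver.
-/

set_option autoImplicit false

open Finset Pool.Agent.Work.MP_6241b7_co Pool.Agent.Work.MP_6241b7_co.Frac

namespace Pool.Agent.Results.MP_6241b7_co.FractionalBurr

/-- `w` is a fractional colouring of `G`: a nonnegative weighting of the independent sets such that
every vertex lies in independent sets of total weight at least `1`. -/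
structure FracColouring {n : ℕ} (G : SimpleGraph (Fin n)) (w : Finset (Fin n) → ℝ) : Prop where
  nonneg : ∀ S, 0 ≤ w S
  indep : ∀ S, w S ≠ 0 → G.IsIndepSet (S : Set (Fin n))
  cover : ∀ v, 1 ≤ ∑ S with v ∈ S, w S

/-- The fractional chromatic number: the infimum of the total weights of fractional colourings. -/
noncomputable def fracChromaticNumber {n : ℕ} (G : SimpleGraph (Fin n)) : ℝ :=
  sInf {t : ℝ | ∃ w, FracColouring G w ∧ t = ∑ S, w S}

theorem frac_eq {n : ℕ} (G : SimpleGraph (Fin n)) :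
    fracChromaticNumber G = fractionalChromaticNumber G := by
  unfold fracChromaticNumber fractionalChromaticNumber
  congr 1
  ext t
  constructor
  · rintro ⟨w, ⟨h1, h2, h3⟩, rfl⟩
    exact ⟨w, ⟨h1, h2, h3⟩, rfl⟩
  · rintro ⟨w, ⟨h1, h2, h3⟩, rfl⟩
    exact ⟨w, ⟨h1, h2, h3⟩, rfl⟩

theorem result (k n m r : ℕ) (D : Fin n → Fin n → Prop) (hD : ∀ x, ¬ D x x)
    (T : Fin (k + 1) → Fin (k + 1) → Prop) (hTas : ∀ a b, T a b → ¬ T b a)
    (hT : (SimpleGraph.fromRel T).IsTree)
    (p : Fin (m + 1) → Fin (k + 1)) (hp : Function.Injective p)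
    (hpT : ∀ i : Fin m, T (p i.castSucc) (p i.succ))
    (hr : ∀ v, ∃ i, (SimpleGraph.fromRel T).dist (p i) v ≤ r)
    (hχ : 2 * (k : ℝ) - m + 1 + 17 * √(((k : ℝ) - m) * r * Real.log (k + 1)) +
      38 * (r * Real.log (k + 1)) ≤ fracChromaticNumber (SimpleGraph.fromRel D)) :
    ∃ f : Fin (k + 1) → Fin n, Function.Injective f ∧ ∀ a b, T a b → D (f a) (f b) := by
  classical
  rw [frac_eq] at hχ
  have hmk : m ≤ k := by
    have := Fintype.card_le_of_injective p hp
    rw [Fintype.card_fin, Fintype.card_fin] at this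
    omega
  have hmk' : (m : ℝ) ≤ k := by exact_mod_cast hmk
  have hℓ0 : 0 ≤ Real.log ((k : ℝ) + 1) := Real.log_nonneg (by linarith [k.cast_nonneg (α := ℝ)])
  -- independent sets
  have hindep : ∀ S : Finset (Fin n), Ind D S →
      (SimpleGraph.fromRel D).IsIndepSet (S : Set (Fin n)) := by
    intro S hS x hx y hy _ hxy
    rw [SimpleGraph.fromRel_adj] at hxy
    rcases hxy.2 with h | h
    · exact hS x hx y hy h
    · exact hS y hy x hx h
  have hunion : ∀ (μ : Fin n → ℝ), (∀ v, 0 ≤ μ v) → ∀ A B : Finset (Fin n),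
      ∑ v ∈ A ∪ B, μ v ≤ ∑ v ∈ A, μ v + ∑ v ∈ B, μ v := by
    intro μ hμ A B
    have h1 := Finset.sum_union_inter (s₁ := A) (s₂ := B) (f := μ)
    have h2 : 0 ≤ ∑ v ∈ A ∩ B, μ v := Finset.sum_nonneg fun v _ => hμ v
    linarith
  by_cases hkr : k = m ∨ r = 0
  · obtain ⟨μ, hμ, hμS, hμt⟩ := exists_clique (SimpleGraph.fromRel D) (c := (m : ℝ) + 1 / 2)
      (by positivity) (lt_of_lt_of_le (by
        have h1 : 0 ≤ √(((k : ℝ) - m) * r * Real.log (k + 1)) := Real.sqrt_nonneg _
        have h2 : 0 ≤ r * Real.log ((k : ℝ) + 1) := by positivity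
        linarith) hχ)
    exact main0 hD hTas hT hp hpT hr hkr hμ (ρ := fun S => ∑ v ∈ S, μ v) (by simp)
      (hunion μ hμ) (fun S hS => hμS S (hindep S hS)) (fun B hB => hB) (by
        change (m : ℝ) < ∑ v, μ v
        rw [hμt]
        linarith)
  · push Not at hkr
    obtain ⟨hkm, hr0⟩ := hkr
    have hkm' : m < k := lt_of_le_of_ne hmk (Ne.symm hkm)
    have hk1 : 1 ≤ k := by omega
    have hk1' : (1 : ℝ) ≤ k := by exact_mod_cast hk1
    -- the radius can be taken at most `k`
    have hr' : ∀ v, ∃ i, (SimpleGraph.fromRel T).dist (p i) v ≤ min r k := by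
      intro v
      obtain ⟨i, hi⟩ := hr v
      refine ⟨i, le_min hi ?_⟩
      obtain ⟨w, hw, hw2⟩ := hT.connected.exists_path_of_dist (p i) v
      have h1 := hw.length_lt
      rw [Fintype.card_fin] at h1
      omega
    set s : ℕ := min r k with hs
    have hs0 : 0 < s := by
      rw [hs, lt_min_iff]
      omega
    have hs1 : (1 : ℝ) ≤ s := by exact_mod_cast hs0
    have hsr : (s : ℝ) ≤ r := by exact_mod_cast min_le_left r k
    have hsk : (s : ℝ) ≤ k := by exact_mod_cast min_le_right r k
    set ℓ : ℝ := Real.log ((k : ℝ) + 1) with hℓ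
    have hℓ2 : Real.log 2 ≤ ℓ := Real.log_le_log (by norm_num) (by linarith)
    have hℓ1 : (0.69 : ℝ) < ℓ := lt_of_lt_of_le (by
      have := Real.log_two_gt_d9
      linarith) hℓ2
    have hℓk : ℓ ≤ k := by
      have := Real.log_le_sub_one_of_pos (show (0 : ℝ) < (k : ℝ) + 1 by linarith)
      linarith
    have ha0 : 0 < (k : ℝ) - m := by
      have : (m : ℝ) < k := by exact_mod_cast hkm'
      linarith
    have hak : (k : ℝ) - m ≤ k := by linarith [m.cast_nonneg (α := ℝ)]
    have hsq : √(((k : ℝ) - m) * s * ℓ) ≤ √(((k : ℝ) - m) * r * ℓ) := by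
      refine Real.sqrt_le_sqrt ?_
      have := mul_le_mul_of_nonneg_left hsr ha0.le
      exact mul_le_mul_of_nonneg_right this hℓ0
    have hsq8 : √(((k : ℝ) - m) * s * (8 * ℓ)) ≤ 17 / 6 * √(((k : ℝ) - m) * s * ℓ) := by
      have h1 : ((k : ℝ) - m) * s * (8 * ℓ) ≤ (17 / 6) ^ 2 * (((k : ℝ) - m) * s * ℓ) := by
        have h2 : 0 ≤ ((k : ℝ) - m) * s * ℓ := by positivity
        have h3 : ((k : ℝ) - m) * s * (8 * ℓ) = 8 * (((k : ℝ) - m) * s * ℓ) := by ring
        rw [h3]
        linarith
      refine (Real.sqrt_le_sqrt h1).trans (le_of_eq ?_)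
      rw [Real.sqrt_mul (by positivity), Real.sqrt_sq (by norm_num)]
    have hsqk : √(((k : ℝ) - m) * s * ℓ) ≤ (k : ℝ) ^ 2 := by
      rw [Real.sqrt_le_left (by positivity)]
      have h1 : ((k : ℝ) - m) * s ≤ k * k := mul_le_mul hak hsk (by linarith) (by linarith)
      have h2 : ((k : ℝ) - m) * s * ℓ ≤ k * k * k := mul_le_mul h1 hℓk hℓ0 (by positivity)
      have h3 : (k : ℝ) * k * k ≤ (k : ℝ) * k * k * k := le_mul_of_one_le_right (by positivity) hk1'
      calc ((k : ℝ) - m) * s * ℓ ≤ (k : ℝ) * k * k * k := h2.trans h3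
        _ = ((k : ℝ) ^ 2) ^ 2 := by ring
    have hsℓ : (s : ℝ) * ℓ ≤ r * ℓ := mul_le_mul_of_nonneg_right hsr hℓ0
    have hsℓk : (s : ℝ) * ℓ ≤ (k : ℝ) ^ 2 := by
      rw [pow_two]
      exact mul_le_mul hsk hℓk hℓ0 (by linarith)
    have hsℓ4 : 4 * (s : ℝ) ≤ 6 * (s * ℓ) := by nlinarith
    set c : ℝ := (m : ℝ) + 2 * ((k : ℝ) - m) + 6 * √(((k : ℝ) - m) * s * (8 * ℓ)) +
      4 * (s * (8 * ℓ)) + 4 * s with hc
    have hc0 : 0 < c := by positivity
    have hsqn : 0 ≤ √(((k : ℝ) - m) * s * ℓ) := Real.sqrt_nonneg _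
    have hcχ : c < fractionalChromaticNumber (SimpleGraph.fromRel D) := by
      refine lt_of_lt_of_le ?_ hχ
      rw [hc]
      linarith
    have hcexp : c ≤ Real.exp (8 * ℓ) := by
      have h1 : Real.exp (8 * ℓ) = ((k : ℝ) + 1) ^ 8 := by
        rw [hℓ, mul_comm, Real.exp_mul, Real.exp_log (by linarith)]
        norm_cast
      have hkk : (k : ℝ) ≤ (k : ℝ) ^ 2 := by
        rw [pow_two]
        exact le_mul_of_one_le_right (by linarith) hk1'
      have h2 : c ≤ 57 * (k : ℝ) ^ 2 := by
        rw [hc]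
        linarith [m.cast_nonneg (α := ℝ)]
      have h3 : (64 : ℝ) * ((k : ℝ) + 1) ^ 2 ≤ ((k : ℝ) + 1) ^ 8 := by
        have h4 : (2 : ℝ) ^ 6 ≤ ((k : ℝ) + 1) ^ 6 := pow_le_pow_left₀ (by norm_num) (by linarith) _
        have h5 : (64 : ℝ) ≤ ((k : ℝ) + 1) ^ 6 := by linarith
        calc (64 : ℝ) * ((k : ℝ) + 1) ^ 2 ≤ ((k : ℝ) + 1) ^ 6 * ((k : ℝ) + 1) ^ 2 :=
              mul_le_mul_of_nonneg_right h5 (sq_nonneg _)
          _ = ((k : ℝ) + 1) ^ 8 := by ring
      have h6 : (k : ℝ) ^ 2 ≤ ((k : ℝ) + 1) ^ 2 := pow_le_pow_left₀ (by linarith) (by linarith) _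
      rw [h1]
      linarith
    obtain ⟨μ, hμ, hμS, hμt⟩ := exists_clique (SimpleGraph.fromRel D) hc0 hcχ
    exact main1 hD hTas hT hp hpT hr' hkm' hs0 hμ (L := 8 * ℓ) (by linarith)
      (ρ := fun S => ∑ v ∈ S, μ v) (by simp)
      (hunion μ hμ) (fun S hS => hμS S (hindep S hS)) (fun B hB => hB) (by rw [hμt]; exact hcexp)
      (by
        change _ ≤ ∑ v, μ v
        rw [hμt])

end Pool.Agent.Results.MP_6241b7_co.FractionalBurr
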