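import Pool.Agent.Work.MP_6241b7_aa.HSF

/-!
# Burr's conjecture up to the average logarithm of the height

Let `T` be an oriented tree with `k` edges and `P` a directed path of `T` with `m` edges (`m = 0`: one
vertex). The height of a vertex `v` outside of `P` is the distance of `v` to the farthest vertex `w` such
that `v` lies between `P` and `w`. If all vertices are at distance at most `h` from `P` then every digraph
of chromatic number larger than
`m + min (24 k (⌊log_3 h⌋ + 2), 72 (m (1 + 2 ⌊log_3 h⌋) + ∑ (1 + 2 ⌊log_3 height v⌋)))`
contains `T`. The first term of the minimum gives Burr's conjecture up to a logarithmic factor for all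
oriented trees (`m = 0`, `h` = radius), and up to a constant factor for the trees in which all vertices are
at bounded distance from a directed path; the second one gives it up to a constant factor for all trees in
which the average of the logarithm of the height is bounded (complete `d`-ary trees, almost all trees, see
`AlmostAllTrees`). The directed path may be replaced by any subtree `P` which is contained in all digraphs
of chromatic number larger than `c` (in place of `m`).

Idea and proof of the first bound: helper41, found independently by helper51 and helper68; Lean: helper51,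
based on blocks of helper17, helper41, helper76, helper79 (see `Work/MP_6241b7_rad`, `Work/MP_6241b7_nash`).
Height sum: helper48, helper68; Lean: helper26, helper48 (`Work/MP_6241b7_aa`).

Proof. The first bound: levels and prices, Brouwer's fixed point theorem for a game in which every vertex
of the digraph chooses a level, see `Work/MP_6241b7_rad`. The second bound: apply the first one, in the form
with a general subtree, to the subtrees of `T` spanned by `P` and the vertices of height at least `3 ^ (2 ^ j)`,
`j = 0, 1, 2, ...`.
-/

set_option autoImplicit false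

open Finset

namespace Pool.Agent.Results.MP_6241b7_co.HeightSum

/-- distance of the vertex `v` to the vertex set `P` -/
noncomputable def distTo {n : ℕ} (G : SimpleGraph (Fin n)) (P : Finset (Fin n)) (v : Fin n) : ℕ :=
  sInf {d | ∃ s ∈ P, G.dist s v = d}

/-- height of `v` over `P`: the largest distance from `v` to a vertex `w` such that `v` lies between `P`
and `w`, that is, the distance of `P` to `w` is the distance of `P` to `v` plus the distance of `v` to `w` -/
noncomputable def height {n : ℕ} (G : SimpleGraph (Fin n)) (P : Finset (Fin n)) (v : Fin n) : ℕ :=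
  (univ.filter (fun w => distTo G P w = distTo G P v + G.dist v w)).sup (fun w => G.dist v w)

theorem result :
    (∀ (k n m h : ℕ) (D : Fin n → Fin n → Prop), (∀ x, ¬ D x x) →
      ∀ (T : Fin (k + 1) → Fin (k + 1) → Prop), (∀ a b, T a b → ¬ T b a) →
      (SimpleGraph.fromRel T).IsTree →
      ∀ (p : Fin (m + 1) → Fin (k + 1)), Function.Injective p →
      (∀ i : Fin m, T (p i.castSucc) (p i.succ)) →
      1 ≤ h → (∀ x, ∃ i, (SimpleGraph.fromRel T).dist (p i) x ≤ h) →
      ((m + min (24 * k * (Nat.log 3 h + 2)) (72 * (m * (1 + 2 * Nat.log 3 h) +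
        ∑ v ∈ univ \ univ.image p,
          (1 + 2 * Nat.log 3 (height (SimpleGraph.fromRel T) (univ.image p) v)))) : ℕ) : ℕ∞) <
        (SimpleGraph.fromRel D).chromaticNumber →
      ∃ f : Fin (k + 1) → Fin n, Function.Injective f ∧ ∀ x y, T x y → D (f x) (f y)) ∧
    (∀ (k n c h : ℕ) (D : Fin n → Fin n → Prop), (∀ x, ¬ D x x) →
      ∀ (T : Fin (k + 1) → Fin (k + 1) → Prop), (∀ a b, T a b → ¬ T b a) →
      (SimpleGraph.fromRel T).IsTree →
      ∀ (P : Finset (Fin (k + 1))),
      ((SimpleGraph.fromRel T).induce (P : Set (Fin (k + 1)))).Connected →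
      1 ≤ h → (∀ x, ∃ s ∈ P, (SimpleGraph.fromRel T).dist s x ≤ h) →
      (∀ (n' : ℕ) (D' : Fin n' → Fin n' → Prop), (∀ x, ¬ D' x x) →
        ((c : ℕ) : ℕ∞) < (SimpleGraph.fromRel D').chromaticNumber →
        ∃ g : Fin (k + 1) → Fin n', Set.InjOn g P ∧ ∀ x ∈ P, ∀ y ∈ P, T x y → D' (g x) (g y)) →
      ((c + min (24 * k * (Nat.log 3 h + 2)) (72 * ((P.card - 1) * (1 + 2 * Nat.log 3 h) +
        ∑ v ∈ univ \ P,
          (1 + 2 * Nat.log 3 (height (SimpleGraph.fromRel T) P v)))) : ℕ) : ℕ∞) <
        (SimpleGraph.fromRel D).chromaticNumber →
      ∃ f : Fin (k + 1) → Fin n, Function.Injective f ∧ ∀ x y, T x y → D (f x) (f y)) := by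
  refine ⟨?_, ?_⟩
  · intro k n m h D hD T hTas hT p hp hpT h1 hh hχ
    have hcard : (univ.image p).card - 1 = m := by
      rw [card_image_of_injective _ hp, card_univ, Fintype.card_fin]
      rfl
    refine Pool.AA.HSFaux.gen D hD T hTas hT (univ.image p) (Pool.AA.HSFaux.path_conn p hp hpT) h1 ?_
      (fun n' D' hD' hχ' => Pool.AA.HSFaux.path_forced hTas hT p hp hpT n' D' hD' hχ') ?_
    · intro x
      obtain ⟨i, hi⟩ := hh x
      exact ⟨p i, mem_image_of_mem _ (mem_univ _), hi⟩
    · rw [hcard]
      exact hχ
  · intro k n c h D hD T hTas hT P hPc h1 hh hc hχ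
    exact Pool.AA.HSFaux.gen D hD T hTas hT P hPc h1 hh hc hχ

end Pool.Agent.Results.MP_6241b7_co.HeightSum
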