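import Pool.Agent.Work.MP_6241b7_lin.Main

/-!
# Burr's conjecture for the fractional chromatic number: a linear bound for all oriented trees

Every digraph whose fractional chromatic number is larger than `4 k - 2` contains every oriented tree
with `k` edges; if the tree is an out-arborescence or an in-arborescence then `2 k - 1` suffices,
which is best possible. Hence the same holds for digraphs with more than `(4 k - 2) α` vertices,
resp. with chromatic number larger than `(4 k - 2) (1 + log α)`, where `α` is the independence number.

Proof idea. For every weighting of a digraph there is an independent set `I` such that the weight of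
the vertices outside `I` with an out-neighbour in `I`, plus half of the weight of `I`, is at least
half of the total weight. By the minimax theorem every vertex set `W` carries a probability
distribution on its independent subsets `I` such that
`P (v ∈ I) / 2 + P (v ∉ I and v has an out-neighbour in I) ≥ 1 / 2` for all `v` in `W`; the same holds
for in-neighbours. Let `ε` be large. Define `A_0 = 0` and `A_{t+1} (v) = A_t (v) + P_t (v ∈ I)`, where
`P_t` is the distribution (resp. the sum of the two distributions) for `W = V_t`, the set of
vertices with `A_t ≤ ε`. If `V_N` is empty then the distributions give a fractional colouring of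
weight `N / ε`. Otherwise a tree is embedded from the root to the leaves, with times `t` going down
from `N` to `0`, the last internal vertex of the tree being chosen such that only its children come
later. If at time `t` the image of a vertex has no free neighbour in the support of `P_t` then the
used vertices have total probability at least `1 / 2` (the last internal vertex counting one half).
This happens at most `ε (2 k - 1)` times, as `A_t ≤ ε` for all vertices when they are used.
-/

set_option autoImplicit false

open Finset Pool.Agent.Work.MP_6241b7_co Pool.Agent.Work.MP_6241b7_co.Frac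

namespace Pool.Agent.Results.MP_6241b7_co.LinearFractional

/-- `w` is a fractional colouring of `G`: a nonnegative weighting of the independent sets such that
every vertex lies in independent sets of total weight at least `1`. -/
structure FracColouring {n : ℕ} (G : SimpleGraph (Fin n)) (w : Finset (Fin n) → ℝ) : Prop where
  nonneg : ∀ S, 0 ≤ w S
  indep : ∀ S, w S ≠ 0 → G.IsIndepSet (S : Set (Fin n))
  cover : ∀ v, 1 ≤ ∑ S with v ∈ S, w S

/-- The fractional chromatic number: the infimum of the total weights of fractional colourings. -/
noncomputable def fracChromaticNumber {n : ℕ} (G : SimpleGraph (Fin n)) : ℝ :=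
  sInf {t : ℝ | ∃ w, FracColouring G w ∧ t = ∑ S, w S}

/-- For an oriented tree `T`: all vertices have at most one in-neighbour (out-arborescence), or all
vertices have at most one out-neighbour (in-arborescence). -/
def IsArborescence {k : ℕ} (T : Fin (k + 1) → Fin (k + 1) → Prop) : Prop :=
  (∀ a b c, T a c → T b c → a = b) ∨ (∀ a b c, T a b → T a c → b = c)

theorem frac_eq {n : ℕ} (G : SimpleGraph (Fin n)) :
    fracChromaticNumber G = fractionalChromaticNumber G := by
  unfold fracChromaticNumber fractionalChromaticNumber
  congr 1
  ext t
  constructor
  · rintro ⟨w, ⟨h1, h2, h3⟩, rfl⟩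
    exact ⟨w, ⟨h1, h2, h3⟩, rfl⟩
  · rintro ⟨w, ⟨h1, h2, h3⟩, rfl⟩
    exact ⟨w, ⟨h1, h2, h3⟩, rfl⟩

theorem result (k n : ℕ) (hk : 1 ≤ k) (D : Fin n → Fin n → Prop) (hD : ∀ x, ¬ D x x)
    (T : Fin (k + 1) → Fin (k + 1) → Prop) (hTas : ∀ a b, T a b → ¬ T b a)
    (hT : (SimpleGraph.fromRel T).IsTree)
    (b : ℝ) (hb : b = 4 * k - 2 ∨ (IsArborescence T ∧ b = 2 * k - 1))
    (hχ : b < fracChromaticNumber (SimpleGraph.fromRel D) ∨
      ∃ α : ℕ, (∀ S : Finset (Fin n),
          (SimpleGraph.fromRel D).IsIndepSet (S : Set (Fin n)) → S.card ≤ α) ∧
        (b * α < n ∨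
          ((⌊b * (1 + Real.log α)⌋₊ : ℕ) : ℕ∞) < (SimpleGraph.fromRel D).chromaticNumber)) :
    ∃ f : Fin (k + 1) → Fin n, Function.Injective f ∧ ∀ x y, T x y → D (f x) (f y) := by
  rw [frac_eq] at hχ
  have hk1 : (1 : ℝ) ≤ k := by exact_mod_cast hk
  have hb0 : 0 ≤ b := by
    rcases hb with hb | ⟨-, hb⟩ <;> rw [hb] <;> linarith
  have h1 : b < fractionalChromaticNumber (SimpleGraph.fromRel D) := by
    rcases hχ with h | ⟨α, hα, h | h⟩
    · exact h
    · exact Work.MP_6241b7_lin.card_le hα hb0 h
    · exact Work.MP_6241b7_lin.lovasz hD hα h
  rcases hb with hb | ⟨hT1 | hT1, hb⟩ <;> rw [hb] at h1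
  · exact Work.MP_6241b7_lin.all_trees hk D hD hTas hT h1
  · exact Work.MP_6241b7_lin.out_arb hk D hD hTas hT hT1 h1
  · exact Work.MP_6241b7_lin.in_arb hk D hD hTas hT hT1 h1

end Pool.Agent.Results.MP_6241b7_co.LinearFractional
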